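import Pool.Agent.helper69.LN.Spec

/-!
Row HNP of the project LN (MP_069684): the half clique language is in `NP/Poly` and monotone.
-/

set_option autoImplicit false

namespace Pool.Agent.LN

open Finset Pool.Agent.helper38.Neg Pool.Agent.helper55.NT

/-- the position of an edge in the input word -/
def HNP_pos (n : ℕ) (e : Fin (Nat.sqrt n) × Fin (Nat.sqrt n)) : Fin n :=
  Fin.castLE (Nat.sqrt_le n) (finProdFinEquiv e)

/-- input bits and guessed bits -/
abbrev HNP_V (n : ℕ) : Type := Fin n ⊕ (Fin (Nat.sqrt n / 2) × Fin (Nat.sqrt n))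

/-- indices of the checks -/
abbrev HNP_I (n : ℕ) : Type :=
  (Fin (Nat.sqrt n / 2) × Fin (Nat.sqrt n / 2)) × (Fin (Nat.sqrt n) × Fin (Nat.sqrt n))

/-- one check -/
def HNP_chk (n : ℕ) (t : HNP_I n) (z : HNP_V n → Bool) : Bool :=
  if t.1.1 = t.1.2 then true
  else if t.2.1 = t.2.2 then !(z (Sum.inr (t.1.1, t.2.1)) && z (Sum.inr (t.1.2, t.2.2)))
  else if t.2.1 < t.2.2 then
    !(z (Sum.inr (t.1.1, t.2.1)) && z (Sum.inr (t.1.2, t.2.2))) || z (Sum.inl (HNP_pos n t.2))
  else true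

/-- the verifier -/
noncomputable def HNP_ver (n : ℕ) (z : HNP_V n → Bool) : Bool :=
  (allB fun i : Fin (Nat.sqrt n / 2) => anyB fun v : Fin (Nat.sqrt n) => z (Sum.inr (i, v))) &&
    allB fun t : HNP_I n => HNP_chk n t z

theorem HNP_chk_cost (n : ℕ) (t : HNP_I n) : HasCost (HNP_chk n t) 4 := by
  by_cases h1 : t.1.1 = t.1.2
  · have h : HNP_chk n t = fun _ => true := by funext z; simp [HNP_chk, h1]
    rw [h]
    exact (HasCost.const true).mono (by omega)
  by_cases h2 : t.2.1 = t.2.2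
  · have h : HNP_chk n t = fun z =>
        !(z (Sum.inr (t.1.1, t.2.1)) && z (Sum.inr (t.1.2, t.2.2))) := by
      funext z
      unfold HNP_chk
      rw [if_neg h1, if_pos h2]
    rw [h]
    exact (HasCost.not (HasCost.and (HasCost.var (Sum.inr (t.1.1, t.2.1)))
      (HasCost.var (Sum.inr (t.1.2, t.2.2))))).mono (by omega)
  by_cases h3 : t.2.1 < t.2.2
  · have h : HNP_chk n t = fun z =>
        !(z (Sum.inr (t.1.1, t.2.1)) && z (Sum.inr (t.1.2, t.2.2))) ||
          z (Sum.inl (HNP_pos n t.2)) := by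
      funext z
      unfold HNP_chk
      rw [if_neg h1, if_neg h2, if_pos h3]
    rw [h]
    exact (HasCost.or (HasCost.not (HasCost.and (HasCost.var (Sum.inr (t.1.1, t.2.1)))
      (HasCost.var (Sum.inr (t.1.2, t.2.2))))) (HasCost.var (Sum.inl (HNP_pos n t.2)))).mono
      (by omega)
  · have h : HNP_chk n t = fun _ => true := by
      funext z
      unfold HNP_chk
      rw [if_neg h1, if_neg h2, if_neg h3]
    rw [h]
    exact (HasCost.const true).mono (by omega)

theorem HNP_ver_cost (n : ℕ) : HasCost (HNP_ver n) (20 * (n + 1) ^ 4) := by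
  have h1 : HasCost (fun z : HNP_V n → Bool =>
      allB fun i : Fin (Nat.sqrt n / 2) => anyB fun v : Fin (Nat.sqrt n) => z (Sum.inr (i, v)))
      (Fintype.card (Fin (Nat.sqrt n / 2)) * (Fintype.card (Fin (Nat.sqrt n)) * (0 + 1) + 1 + 1)
        + 1) := by
    refine HasCost.all (fun i z => anyB fun v : Fin (Nat.sqrt n) => z (Sum.inr (i, v))) _ ?_
    intro i
    exact HasCost.any (fun v z => z (Sum.inr (i, v))) 0 fun v => HasCost.var (Sum.inr (i, v))
  have h2 : HasCost (fun z : HNP_V n → Bool => allB fun t : HNP_I n => HNP_chk n t z)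
      (Fintype.card (HNP_I n) * (4 + 1) + 1) :=
    HasCost.all (HNP_chk n) 4 (HNP_chk_cost n)
  refine (h1.and h2).mono ?_
  have hM : Nat.sqrt n ≤ n + 1 := (Nat.sqrt_le_self n).trans (Nat.le_succ n)
  have hK : Nat.sqrt n / 2 ≤ n + 1 := (Nat.div_le_self _ _).trans hM
  have hcard : Fintype.card (HNP_I n) =
      (Nat.sqrt n / 2 * (Nat.sqrt n / 2)) * (Nat.sqrt n * Nat.sqrt n) := by
    simp [HNP_I]
  rw [hcard, Fintype.card_fin, Fintype.card_fin]
  have g1 : (Nat.sqrt n / 2 * (Nat.sqrt n / 2)) * (Nat.sqrt n * Nat.sqrt n) ≤ (n + 1) ^ 4 := by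
    calc (Nat.sqrt n / 2 * (Nat.sqrt n / 2)) * (Nat.sqrt n * Nat.sqrt n)
        ≤ ((n + 1) * (n + 1)) * ((n + 1) * (n + 1)) :=
          Nat.mul_le_mul (Nat.mul_le_mul hK hK) (Nat.mul_le_mul hM hM)
      _ = (n + 1) ^ 4 := by ring
  have g2 : Nat.sqrt n / 2 * (Nat.sqrt n * (0 + 1) + 1 + 1) ≤ 3 * (n + 1) ^ 2 := by
    calc Nat.sqrt n / 2 * (Nat.sqrt n * (0 + 1) + 1 + 1)
        ≤ (n + 1) * (3 * (n + 1)) := Nat.mul_le_mul hK (by omega)
      _ = 3 * (n + 1) ^ 2 := by ring
  have g3 : (n + 1) ^ 2 ≤ (n + 1) ^ 4 := Nat.pow_le_pow_right (by omega) (by norm_num)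
  have g4 : 1 ≤ (n + 1) ^ 2 := Nat.one_le_pow _ _ (by omega)
  omega

theorem HNP_correct (n : ℕ) (x : Fin n → Bool) :
    HC n x ↔ ∃ y : Fin (Nat.sqrt n / 2) × Fin (Nat.sqrt n) → Bool,
      HNP_ver n (Sum.elim x y) = true := by
  constructor
  · rintro ⟨S, hS, hcl⟩
    let f : S ≃ Fin (Nat.sqrt n / 2) := S.equivFinOfCardEq hS
    refine ⟨fun a => decide ((f.symm a.1 : Fin (Nat.sqrt n)) = a.2), ?_⟩
    unfold HNP_ver
    rw [Bool.and_eq_true, allB_iff, allB_iff]
    constructor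
    · intro i
      rw [anyB_iff]
      exact ⟨(f.symm i : Fin (Nat.sqrt n)), by simp⟩
    · rintro ⟨⟨i, j⟩, ⟨u, v⟩⟩
      unfold HNP_chk
      dsimp only
      by_cases h1 : i = j
      · rw [if_pos h1]
      rw [if_neg h1]
      by_cases h2 : u = v
      · rw [if_pos h2]
        subst h2
        simp only [Sum.elim_inr, Bool.not_eq_true', Bool.and_eq_false_iff, decide_eq_false_iff_not]
        by_contra hcon
        rw [not_or, not_not, not_not] at hcon
        apply h1
        have h3 : (f.symm i : Fin (Nat.sqrt n)) = (f.symm j : Fin (Nat.sqrt n)) :=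
          hcon.1.trans hcon.2.symm
        exact f.symm.injective (Subtype.ext h3)
      rw [if_neg h2]
      by_cases h3 : u < v
      · rw [if_pos h3]
        by_cases h4 : (f.symm i : Fin (Nat.sqrt n)) = u ∧ (f.symm j : Fin (Nat.sqrt n)) = v
        · have h5 := hcl u (h4.1 ▸ (f.symm i).2) v (h4.2 ▸ (f.symm j).2) h3
          rw [Bool.or_eq_true]
          right
          exact h5
        · rw [Bool.or_eq_true]
          left
          simp only [Sum.elim_inr, Bool.not_eq_true', Bool.and_eq_false_iff,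
            decide_eq_false_iff_not]
          exact not_and_or.1 h4
      · rw [if_neg h3]
  · rintro ⟨y, hy⟩
    unfold HNP_ver at hy
    rw [Bool.and_eq_true, allB_iff, allB_iff] at hy
    obtain ⟨hy1, hy2⟩ := hy
    have hy3 : ∀ i : Fin (Nat.sqrt n / 2), ∃ v : Fin (Nat.sqrt n), y (i, v) = true := by
      intro i
      exact (anyB_iff _).1 (hy1 i)
    choose v hv using hy3
    have hinj : Function.Injective v := by
      intro i j hij
      by_contra hne
      have h1 := hy2 ((i, j), (v i, v j))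
      unfold HNP_chk at h1
      dsimp only at h1
      rw [if_neg hne, if_pos hij] at h1
      simp only [Sum.elim_inr, hv, Bool.and_self, Bool.not_true] at h1
      exact Bool.false_ne_true h1
    refine ⟨univ.image v, ?_, ?_⟩
    · rw [card_image_of_injective _ hinj, card_univ, Fintype.card_fin]
    · intro a ha b hb hab
      obtain ⟨i, -, rfl⟩ := mem_image.1 ha
      obtain ⟨j, -, rfl⟩ := mem_image.1 hb
      have hne : i ≠ j := fun h => by
        rw [h] at hab
        exact lt_irrefl _ hab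
      have h1 := hy2 ((i, j), (v i, v j))
      unfold HNP_chk at h1
      dsimp only at h1
      rw [if_neg hne, if_neg hab.ne, if_pos hab] at h1
      simp only [Sum.elim_inr, hv, Bool.and_self, Bool.not_true, Bool.false_or,
        Sum.elim_inl] at h1
      exact h1

theorem HNP_poly : InNPPoly HC := by
  refine ⟨20 * (Polynomial.X + 1) ^ 4, fun n => ?_⟩
  have hev : (20 * (Polynomial.X + 1) ^ 4 : Polynomial ℕ).eval n = 20 * (n + 1) ^ 4 := by
    simp
  rw [hev]
  let W := Fin (Nat.sqrt n / 2) × Fin (Nat.sqrt n)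
  let eqv : W ≃ Fin (Fintype.card W) := Fintype.equivFin W
  have hW : Fintype.card W ≤ 20 * (n + 1) ^ 4 := by
    have hM : Nat.sqrt n ≤ n + 1 := (Nat.sqrt_le_self n).trans (Nat.le_succ n)
    have hK : Nat.sqrt n / 2 ≤ n + 1 := (Nat.div_le_self _ _).trans hM
    have h1 : Fintype.card W = Nat.sqrt n / 2 * Nat.sqrt n := by simp [W]
    rw [h1]
    have h2 : Nat.sqrt n / 2 * Nat.sqrt n ≤ (n + 1) * (n + 1) := Nat.mul_le_mul hK hM
    have h3 : (n + 1) * (n + 1) = (n + 1) ^ 2 := by ring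
    have h4 : (n + 1) ^ 2 ≤ (n + 1) ^ 4 := Nat.pow_le_pow_right (by omega) (by norm_num)
    omega
  let φ : Fin n ⊕ W → Fin (n + Fintype.card W) :=
    Sum.elim (Fin.castAdd _) (fun w => Fin.natAdd n (eqv w))
  obtain ⟨L, h1, h2, h3⟩ := (HNP_ver_cost n).rename φ
  obtain ⟨C, hC⟩ := h1.toCircuit
  obtain ⟨o, ho⟩ := hC _ h3
  refine ⟨Fintype.card W, L.length, hW, h2, C, o, fun x => ?_⟩
  rw [HNP_correct]
  have hφ : ∀ y : Fin (Fintype.card W) → Bool,
      (Fin.append x y) ∘ φ = Sum.elim x (y ∘ eqv) := by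
    intro y
    funext a
    rcases a with i | w
    · simp [φ]
    · simp [φ]
  constructor
  · rintro ⟨y, hy⟩
    refine ⟨y ∘ eqv.symm, ?_⟩
    rw [ho, hφ]
    have h5 : (y ∘ eqv.symm) ∘ eqv = y := by funext w; simp
    rw [h5]
    exact hy
  · rintro ⟨y, hy⟩
    rw [ho, hφ] at hy
    exact ⟨_, hy⟩

theorem HNP : HNP_stmt := by
  refine ⟨HNP_poly, fun n x y hxy => ?_⟩
  rintro ⟨S, hS, hcl⟩
  refine ⟨S, hS, fun u hu v hv huv => ?_⟩
  have h1 := hcl u hu v hv huv
  have h2 := hxy (Fin.castLE (Nat.sqrt_le n) (finProdFinEquiv (u, v)))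
  dsimp only at h1 ⊢
  rw [h1] at h2
  exact top_le_iff.1 h2

end Pool.Agent.LN
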